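import Pool.Agent.HJ66.Stepanov

/-!
# Stepanov's method for `y ^ m = f(x)`, `gcd(m, deg f) = 1`
-/

namespace Pool.Agent.HJ66

open Polynomial Finset

section aux

variable {F : Type*} [Field F]

/-- The auxiliary polynomial. -/
noncomputable def auxM [Fintype F] (f : F[X]) (M h : ℕ) {e J : ℕ} (r : Fin e → Fin J → F[X]) :
    F[X] :=
  f ^ M * ∑ i : Fin e, f ^ (h * (i : ℕ)) * dig (Fintype.card F) (r i)

/-- The conditions. -/
noncomputable def WM (f : F[X]) (M h k : ℕ) (a : F) {e J : ℕ} (r : Fin e → Fin J → F[X]) : F[X] :=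
  ∑ j : Fin J, X ^ (j : ℕ) * ∑ i : Fin e, (a ^ (i : ℕ)) • RR f (M + h * (i : ℕ)) k (r i j)

lemma auxM_vanish [Fintype F] {f : F[X]} (hf : f.natDegree ≠ 0) {M h : ℕ} {a : F} {e J : ℕ}
    (r : Fin e → Fin J → F[X]) (hM : M ≤ Fintype.card F) (hW : ∀ k < M, WM f M h k a r = 0)
    {x : F} (hx : (f.eval x) ^ h = a) : (X - C x) ^ M ∣ auxM f M h r := by
  set P : F[X] := ∑ j : Fin J, (x ^ (j : ℕ)) • ∑ i : Fin e, f ^ (M + h * (i : ℕ)) * r i j with hP
  have h1 : (X - C x) ^ M ∣ auxM f M h r - P := by
    have e1 : auxM f M h r - P = ∑ i : Fin e, f ^ M * f ^ (h * (i : ℕ)) *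
        (dig (Fintype.card F) (r i) - ∑ j : Fin J, (x ^ (j : ℕ)) • r i j) := by
      have e2 : P = ∑ i : Fin e, f ^ M * f ^ (h * (i : ℕ)) *
          ∑ j : Fin J, (x ^ (j : ℕ)) • r i j := by
        rw [hP]
        simp only [Finset.smul_sum, Finset.mul_sum]
        rw [Finset.sum_comm]
        refine Finset.sum_congr rfl fun i _ => Finset.sum_congr rfl fun j _ => ?_
        rw [smul_eq_C_mul, smul_eq_C_mul, pow_add]
        ring
      rw [e2, auxM, Finset.mul_sum, ← Finset.sum_sub_distrib]
      refine Finset.sum_congr rfl fun i _ => ?_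
      ring
    rw [e1]
    refine Finset.dvd_sum fun i _ => ?_
    exact Dvd.dvd.mul_left ((pow_dvd_pow (X - C x) hM).trans (dvd_dig_sub (r i) x)) _
  have h2 : (X - C x) ^ M ∣ P := by
    refine pow_dvd_of_hasse fun k hk => ?_
    rw [hP, map_sum]
    have h3 : ∀ j : Fin J, hasseDeriv k ((x ^ (j : ℕ)) • ∑ i : Fin e, f ^ (M + h * (i : ℕ)) * r i j)
        = (x ^ (j : ℕ)) • (f ^ (M - k) *
          ∑ i : Fin e, f ^ (h * (i : ℕ)) * RR f (M + h * (i : ℕ)) k (r i j)) := by
      intro j
      rw [map_smul, map_sum, Finset.mul_sum]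
      congr 1
      refine Finset.sum_congr rfl fun i _ => ?_
      rw [hasse_pow_mul hf (by omega), show M + h * (i : ℕ) - k = (M - k) + h * (i : ℕ) by omega,
        pow_add]
      ring
    rw [Finset.sum_congr rfl fun j _ => h3 j, eval_finsetSum]
    have h4 := congrArg (eval x) (hW k hk)
    rw [WM, eval_finsetSum, eval_zero] at h4
    calc ∑ j : Fin J, eval x ((x ^ (j : ℕ)) • (f ^ (M - k) *
          ∑ i : Fin e, f ^ (h * (i : ℕ)) * RR f (M + h * (i : ℕ)) k (r i j)))
        = (f.eval x) ^ (M - k) * ∑ j : Fin J, eval x (X ^ (j : ℕ) *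
            ∑ i : Fin e, (a ^ (i : ℕ)) • RR f (M + h * (i : ℕ)) k (r i j)) := by
          rw [Finset.mul_sum]
          refine Finset.sum_congr rfl fun j _ => ?_
          simp only [eval_smul, eval_mul, eval_pow, eval_finsetSum, eval_X, smul_eq_mul, pow_mul, hx]
          ring
      _ = 0 := by rw [h4, mul_zero]
  have h3 := dvd_add h1 h2
  rwa [sub_add_cancel] at h3

/-- residues of the degrees -/
lemma window {q e h n i Q R : ℕ} (hq : q = e * h + 1) (hn : n + 1 ≤ h) (hi : i < e)
    (hcop : Nat.Coprime n e) (hR : R < h - n) :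
    ((h * i * n + (q * Q + R)) % q + n) / h = (i * n) % e := by
  obtain ⟨A, hA⟩ : ∃ A, A = (i * n) / e := ⟨_, rfl⟩
  obtain ⟨B, hB⟩ : ∃ B, B = (i * n) % e := ⟨_, rfl⟩
  have hAB : e * A + B = i * n := by rw [hA, hB]; exact Nat.div_add_mod (i * n) e
  rw [← hB]
  have he : 0 < e := by omega
  have hBe : B < e := by rw [hB]; exact Nat.mod_lt _ he
  have hAn : A ≤ n := by
    rw [hA]
    refine Nat.div_le_of_le_mul ?_
    exact Nat.mul_le_mul_right n hi.le
  have hAB' : A ≤ B * h := by
    rcases Nat.eq_zero_or_pos B with h0 | h0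
    · have h1 : e ∣ i * n := Nat.dvd_of_mod_eq_zero (hB ▸ h0)
      have h2 : e ∣ i := hcop.symm.dvd_of_dvd_mul_right h1
      have h3 : i = 0 := Nat.eq_zero_of_dvd_of_lt h2 hi
      rw [hA, h3, zero_mul, Nat.zero_div]
      exact Nat.zero_le _
    · have : 1 * h ≤ B * h := Nat.mul_le_mul_right h h0
      omega
  obtain ⟨T, hT⟩ := Nat.exists_eq_add_of_le hAB'
  -- `B h = A + T`
  have h1 : h * i * n + (q * Q + R) = q * (A + Q) + (T + R) := by
    have h2 : h * i * n = h * (e * A + B) := by rw [hAB]; ring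
    rw [h2, hq]
    have h3 : h * (e * A + B) = e * h * A + B * h := by ring
    rw [h3, hT]
    ring
  have hBh : B * h + h ≤ e * h := by
    have : (B + 1) * h ≤ e * h := Nat.mul_le_mul_right h hBe
    rwa [Nat.add_mul, one_mul] at this
  have h2 : T + R < q := by
    clear h1 hAB hA hB
    omega
  rw [h1, Nat.mul_add_mod, Nat.mod_eq_of_lt h2]
  clear h1 hAB hA hB
  have h3 : T + R + n = (R + (n - A)) + B * h := by omega
  rw [h3, Nat.add_mul_div_right _ _ (by omega), Nat.div_eq_of_lt (by omega), zero_add]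

lemma auxM_ne_zero [Fintype F] {f : F[X]} {e h : ℕ}
    (hq : Fintype.card F = e * h + 1) (hn : f.natDegree + 1 ≤ h)
    (hcop : Nat.Coprime f.natDegree e) (hf0 : f ≠ 0) (M : ℕ)
    {J : ℕ} {r : Fin e → Fin J → F[X]} (hr : ∀ i j, r i j ∈ degreeLT F (h - f.natDegree))
    (hne : ∃ i j, r i j ≠ 0) : auxM f M h r ≠ 0 := by
  obtain ⟨i₀, j₀, hij⟩ := hne
  have he : 0 < e := by have := i₀.2; omega
  have hdq : h - f.natDegree ≤ Fintype.card F := by
    have : 1 * h ≤ e * h := Nat.mul_le_mul_right h he
    omega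
  rw [auxM]
  refine mul_ne_zero (pow_ne_zero _ hf0) ?_
  set t : Fin e → F[X] := fun i => f ^ (h * (i : ℕ)) * dig (Fintype.card F) (r i) with ht
  have hdisj : Set.Pairwise {i | i ∈ (univ : Finset (Fin e)) ∧ t i ≠ 0} (fun i i' => (degree ∘ t) i ≠ (degree ∘ t) i') := by
    rintro i ⟨-, hi⟩ i' ⟨-, hi'⟩ hii'
    intro hdeg
    apply hii'
    have key : ∀ i : Fin e, t i ≠ 0 →
        ((t i).natDegree % Fintype.card F + f.natDegree) / h = ((i : ℕ) * f.natDegree) % e := by
      intro i hi
      have hd0 : dig (Fintype.card F) (r i) ≠ 0 := by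
        intro h0
        exact hi (by rw [ht]; simp only; rw [h0, mul_zero])
      have h3 := dig_mod hdq (hr i) hd0
      have h4 : (t i).natDegree = h * (i : ℕ) * f.natDegree +
          (Fintype.card F * ((dig (Fintype.card F) (r i)).natDegree / Fintype.card F) +
            (dig (Fintype.card F) (r i)).natDegree % Fintype.card F) := by
        rw [Nat.div_add_mod, ht]
        simp only
        rw [natDegree_mul (pow_ne_zero _ hf0) hd0, natDegree_pow]
      rw [h4]
      exact window hq hn i.2 hcop h3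
    have h5 : (t i).natDegree = (t i').natDegree := natDegree_eq_of_degree_eq hdeg
    have h6 := key i hi
    rw [h5, key i' hi'] at h6
    have h7 : (i' : ℕ) ≡ i [MOD e] := by
      have h8 : (i' : ℕ) * f.natDegree ≡ i * f.natDegree [MOD e] := h6
      exact Nat.ModEq.cancel_right_of_coprime (by rw [Nat.coprime_comm.1 hcop]) h8
    have h8 := Nat.ModEq.eq_of_lt_of_lt h7 i'.2 i.2
    exact (Fin.ext h8).symm
  have hsum := degree_sum_eq_of_disjoint t univ hdisj
  intro h0
  have h1 : degree (t i₀) ≤ degree (∑ i, t i) := by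
    rw [hsum]
    exact Finset.le_sup (f := fun i => degree (t i)) (Finset.mem_univ i₀)
  have h2 : t i₀ ≠ 0 := mul_ne_zero (pow_ne_zero _ hf0) (dig_ne_zero hdq (hr i₀) hij)
  have h3 : (∑ i, t i) = 0 := h0
  rw [h3, degree_zero, le_bot_iff, degree_eq_bot] at h1
  exact h2 h1

lemma exists_auxM {f : F[X]} (hf : f.natDegree ≠ 0) {d h e M J : ℕ} (a : F)
    (hdim : ∑ k ∈ range M, (d + k * (f.natDegree - 1) + J) < e * (J * d)) :
    ∃ r : Fin e → Fin J → F[X], (∀ i j, r i j ∈ degreeLT F d) ∧
      (∃ i j, r i j ≠ 0) ∧ ∀ k < M, WM f M h k a r = 0 := by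
  set W : ℕ → (Fin e → Fin J → degreeLT F d) →ₗ[F] F[X] := fun k =>
    ∑ j : Fin J, (LinearMap.mulLeft F (X ^ (j : ℕ))) ∘ₗ ∑ i : Fin e, (a ^ (i : ℕ)) •
      (RR f (M + h * (i : ℕ)) k ∘ₗ (degreeLT F d).subtype ∘ₗ LinearMap.proj j ∘ₗ
        LinearMap.proj i) with hW
  have hWa : ∀ k v, W k v = WM f M h k a (fun i j => (v i j : F[X])) := by
    intro k v
    simp [hW, WM, Finset.mul_sum]
  set L : (Fin e → Fin J → degreeLT F d) →ₗ[F]
      ((k : Fin M) → Fin (d + (k : ℕ) * (f.natDegree - 1) + J) → F) :=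
    LinearMap.pi fun k => LinearMap.pi fun i => (lcoeff F (i : ℕ)) ∘ₗ W k with hL
  have e1 : Module.finrank F (degreeLT F d) = d := by
    rw [(degreeLTEquiv F d).finrank_eq, Module.finrank_fin_fun]
  have e2 : Module.Finite F (degreeLT F d) :=
    Module.Finite.equiv (degreeLTEquiv F d).symm
  have hfin : Module.finrank F ((k : Fin M) → Fin (d + (k : ℕ) * (f.natDegree - 1) + J) → F) <
      Module.finrank F (Fin e → Fin J → degreeLT F d) := by
    rw [Module.finrank_pi_fintype, Module.finrank_pi_fintype]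
    simp only [Module.finrank_self, Module.finrank_pi_fintype, e1, Finset.sum_const,
      Finset.card_univ, Fintype.card_fin, smul_eq_mul, mul_one]
    rw [Fin.sum_univ_eq_sum_range (fun k => d + k * (f.natDegree - 1) + J)]
    exact hdim
  have hker := LinearMap.ker_ne_bot_of_finrank_lt (f := L) hfin
  obtain ⟨v, hv, hv0⟩ := (Submodule.ne_bot_iff _).1 hker
  rw [LinearMap.mem_ker] at hv
  refine ⟨fun i j => v i j, fun i j => (v i j).2, ?_, ?_⟩
  · by_contra hcon
    push Not at hcon
    refine hv0 (funext fun i => funext fun j => Subtype.ext (hcon i j))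
  · intro k hk
    rw [← hWa]
    have h1 : W k v ∈ degreeLT F (d + k * (f.natDegree - 1) + J) := by
      rw [hWa, WM]
      refine Submodule.sum_mem _ fun j _ => ?_
      set p := ∑ i : Fin e, (a ^ (i : ℕ)) • RR f (M + h * (i : ℕ)) k (v i j : F[X]) with hp
      have h2 : p ∈ degreeLT F (d + k * (f.natDegree - 1)) :=
        Submodule.sum_mem _ fun i _ => Submodule.smul_mem _ _ (RR_deg f hf _ _ _ (v i j).2)
      by_cases h0 : p = 0
      · rw [h0, mul_zero]; exact Submodule.zero_mem _
      rw [mem_degreeLT] at h2 ⊢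
      rw [degree_mul, degree_X_pow, degree_eq_natDegree h0] at *
      have h3 : p.natDegree < d + k * (f.natDegree - 1) := by exact_mod_cast h2
      have h4 := j.2
      exact_mod_cast (show (j : ℕ) + p.natDegree < d + k * (f.natDegree - 1) + J by omega)
    ext i
    rw [coeff_zero]
    by_cases hi : i < d + k * (f.natDegree - 1) + J
    · have h2 := congrFun (congrFun hv ⟨k, hk⟩) ⟨i, hi⟩
      simpa [hL] using h2
    · refine coeff_eq_zero_of_degree_lt ?_
      rw [mem_degreeLT] at h1
      refine h1.trans_le ?_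
      exact_mod_cast not_lt.1 hi

lemma auxM_deg [Fintype F] (f : F[X]) (M h : ℕ) {d e J : ℕ} {r : Fin e → Fin J → F[X]}
    (hr : ∀ i j, r i j ∈ degreeLT F d) : (auxM f M h r).natDegree ≤
      M * f.natDegree + (h * e * f.natDegree + (d + (J - 1) * Fintype.card F)) := by
  have key : ∀ t : Fin J → F[X], (∀ j, t j ∈ degreeLT F d) →
      (dig (Fintype.card F) t).natDegree ≤ d + (J - 1) * Fintype.card F := by
    intro t ht
    have h1 := dig_deg (q := Fintype.card F) ht
    rw [mem_degreeLT] at h1
    exact natDegree_le_of_degree_le h1.le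
  rw [auxM]
  refine natDegree_mul_le.trans (Nat.add_le_add natDegree_pow_le ?_)
  refine natDegree_sum_le_of_forall_le _ _ fun i _ => ?_
  refine natDegree_mul_le.trans (Nat.add_le_add (natDegree_pow_le.trans ?_) (key _ (hr i)))
  exact Nat.mul_le_mul_right _ (Nat.mul_le_mul_left _ i.2.le)

end aux

section count

variable {F : Type*} [Field F] [Fintype F]

/-- The main estimate: few solutions of `f(x)^h = a`. -/
lemma card_leM {f : F[X]} [DecidableEq F] {e h M J : ℕ}
    (hq : Fintype.card F = e * h + 1) (hn : f.natDegree + 1 ≤ h)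
    (hcop : Nat.Coprime f.natDegree e) (hf0 : f.natDegree ≠ 0)
    (hM : M ≤ Fintype.card F) (a : F)
    (hdim : ∑ k ∈ range M, ((h - f.natDegree) + k * (f.natDegree - 1) + J) <
      e * (J * (h - f.natDegree))) :
    M * (univ.filter fun x : F => (f.eval x) ^ h = a).card ≤
      M * f.natDegree + (h * e * f.natDegree + ((h - f.natDegree) + (J - 1) * Fintype.card F)) := by
  obtain ⟨r, hr, hne, hW⟩ := exists_auxM (h := h) hf0 a hdim
  have hfne : f ≠ 0 := by
    rintro rfl
    exact hf0 natDegree_zero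
  have h0 := auxM_ne_zero hq hn hcop hfne M hr hne
  refine le_trans ?_ (auxM_deg f M h hr)
  refine le_trans ?_ (card_roots' (auxM f M h r))
  have h1 : ∀ x ∈ univ.filter (fun x : F => (f.eval x) ^ h = a),
      M ≤ (auxM f M h r).roots.count x := by
    intro x hx
    rw [Finset.mem_filter] at hx
    rw [count_roots]
    exact (le_rootMultiplicity_iff h0).2 (auxM_vanish hf0 r hM hW hx.2)
  calc M * (univ.filter fun x : F => (f.eval x) ^ h = a).card
      = ∑ x ∈ univ.filter (fun x : F => (f.eval x) ^ h = a), M := by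
        rw [Finset.sum_const, smul_eq_mul, mul_comm]
    _ ≤ ∑ x ∈ univ.filter (fun x : F => (f.eval x) ^ h = a), (auxM f M h r).roots.count x :=
        Finset.sum_le_sum h1
    _ ≤ ∑ x : F, (auxM f M h r).roots.count x :=
        Finset.sum_le_sum_of_subset (Finset.filter_subset _ _)
    _ = Multiset.card (auxM f M h r).roots := by
        exact Multiset.sum_count_eq_card fun x _ => Finset.mem_univ x

/-- size condition -/
def QQ (n e : ℕ) : ℕ := 4 * n * e + 16 + 4 * (e + 1) ^ 2

lemma card_realM {f : F[X]} [DecidableEq F] {e h : ℕ} (he : 2 ≤ e)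
    (hq : Fintype.card F = e * h + 1) (hcop : Nat.Coprime f.natDegree e)
    (hf0 : f.natDegree ≠ 0) (hQ : QQ f.natDegree e ≤ Fintype.card F) (a : F) :
    ((univ.filter fun x : F => (f.eval x) ^ h = a).card : ℝ) ≤
      (Fintype.card F : ℝ) / e + f.natDegree +
        2 * (f.natDegree * (1 + e)) * Real.sqrt (Fintype.card F) := by
  set q := Fintype.card F with hqd
  set n := f.natDegree with hn
  rw [QQ] at hQ
  set s := Nat.sqrt q with hs
  set m := s / e with hm
  have hs1 : s * s ≤ q := Nat.sqrt_le q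
  have hs2 : q < (s + 1) * (s + 1) := Nat.lt_succ_sqrt q
  have hme : e * m ≤ s := Nat.mul_div_le s e
  have hme2 : s < e * m + e := by
    have := Nat.lt_div_mul_add (a := s) (b := e) (by omega)
    rw [← hm] at this
    linarith [mul_comm e m]
  have hsq : s ≤ q := Nat.sqrt_le_self q
  have hnh : n + 1 ≤ h := by
    by_contra hcon
    push Not at hcon
    have h1 : e * h ≤ e * n := Nat.mul_le_mul_left e (by omega)
    nlinarith
  have hdim : ∑ k ∈ range (e * m), ((h - n) + k * (n - 1) + (m + n * e)) <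
      e * ((m + n * e) * (h - n)) := by
    rw [Finset.sum_add_distrib, Finset.sum_add_distrib, ← Finset.sum_mul]
    simp only [Finset.sum_const, card_range, smul_eq_mul]
    have h1 := Finset.sum_range_id_mul_two (e * m)
    obtain ⟨n', hn'⟩ : ∃ n', n = n' + 1 := ⟨n - 1, by omega⟩
    have h2 : 2 * (∑ i ∈ range (e * m), i) ≤ q := by
      calc 2 * (∑ i ∈ range (e * m), i) = e * m * (e * m - 1) := by omega
        _ ≤ (e * m) * (e * m) := Nat.mul_le_mul_left _ (by omega)
        _ ≤ s * s := Nat.mul_le_mul hme hme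
        _ ≤ q := hs1
    have h3 : 2 * ((∑ i ∈ range (e * m), i) * (n - 1)) ≤ q * (n - 1) := by
      calc 2 * ((∑ i ∈ range (e * m), i) * (n - 1)) =
            2 * (∑ i ∈ range (e * m), i) * (n - 1) := by ring
        _ ≤ q * (n - 1) := Nat.mul_le_mul_right _ h2
    have h4 : e * m * (m + n * e) ≤ q + s * (n * e) := by
      have h5 : e * m * m ≤ q := by
        calc e * m * m ≤ e * m * (e * m) := by
              refine Nat.mul_le_mul_left _ ?_
              calc m = 1 * m := (one_mul m).symm
                _ ≤ e * m := Nat.mul_le_mul_right m (by omega)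
          _ ≤ s * s := Nat.mul_le_mul hme hme
          _ ≤ q := hs1
      calc e * m * (m + n * e) = e * m * m + e * m * (n * e) := by ring
        _ ≤ q + s * (n * e) := Nat.add_le_add h5 (Nat.mul_le_mul_right _ hme)
    have h5 : 2 * s ≤ q := by nlinarith
    obtain ⟨d, hd⟩ : ∃ d, h = n + d := ⟨h - n, by omega⟩
    have hdn : h - n = d := by omega
    rw [hdn]
    have hqd' : q = e * n + e * d + 1 := by rw [hq, hd]; ring
    have h6 : q + 2 * (e * n) + 2 * s + 2 < 2 * q := by nlinarith
    have h7 : q * (n - 1) + 2 * (q + s * (n * e)) < 2 * (n * e * (e * d)) := by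
      have h8 : q * (n - 1) + 2 * q ≤ n * e * q := by
        rw [hn', Nat.add_sub_cancel]
        calc q * n' + 2 * q ≤ (n' + 1) * 2 * q := by nlinarith
          _ ≤ (n' + 1) * e * q := by gcongr
      have h9 : n * e * (q + 2 * s) < n * e * (2 * (e * d)) := by
        refine Nat.mul_lt_mul_of_pos_left ?_ (by positivity)
        omega
      nlinarith
    nlinarith
  have h1 := card_leM hq hnh hcop hf0 (hme.trans hsq) a hdim
  rw [← hqd] at h1
  set N := (univ.filter fun x : F => (f.eval x) ^ h = a).card with hN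
  have h2 : e * m * N ≤ e * m * n + (q * n + (m + n * e) * q) := by
    refine h1.trans (Nat.add_le_add_left (Nat.add_le_add ?_ ?_) _)
    · refine Nat.mul_le_mul_right _ ?_
      rw [hq]
      nlinarith
    · have h3 : h - n ≤ q := by
        rw [hq]
        nlinarith [Nat.sub_le h n]
      have h4 : 1 ≤ m + n * e := by
        have : 1 ≤ n * e := Nat.one_le_iff_ne_zero.2 (Nat.mul_ne_zero hf0 (by omega))
        exact this.trans (Nat.le_add_left _ _)
      obtain ⟨J', hJ'⟩ : ∃ J', m + n * e = J' + 1 := ⟨m + n * e - 1, by omega⟩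
      rw [hJ', Nat.add_sub_cancel, Nat.add_mul, one_mul]
      omega
  have h3 : (e : ℝ) * m * N ≤ e * m * n + (q * n + (m + n * e) * q) := by exact_mod_cast h2
  set t := Real.sqrt q with ht
  have hq0 : (0 : ℝ) ≤ q := Nat.cast_nonneg _
  have ht2 : t * t = q := Real.mul_self_sqrt hq0
  have her : (2 : ℝ) ≤ e := by exact_mod_cast he
  have ht4 : 2 * ((e : ℝ) + 1) ≤ t := by
    rw [ht]
    refine Real.le_sqrt_of_sq_le ?_
    have : 4 * (e + 1) ^ 2 ≤ q := by omega
    have h5 : (4 : ℝ) * ((e : ℝ) + 1) ^ 2 ≤ q := by exact_mod_cast this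
    linarith [h5]
  have hmt : t / 2 ≤ e * m := by
    have h5 : t ≤ s + 1 := by
      rw [ht, Real.sqrt_le_left (by positivity), sq]
      exact_mod_cast hs2.le
    have h6 : (s : ℝ) + 1 ≤ e * m + e := by exact_mod_cast hme2
    linarith
  have hn0 : (0 : ℝ) ≤ n := Nat.cast_nonneg _
  have hpos : (0 : ℝ) < e * m := by linarith
  have h5 : (e : ℝ) * m * N ≤ e * m * (q / e + n + 2 * (n * (1 + e)) * t) := by
    have h6 : (q : ℝ) * n + n * e * q ≤ e * m * (2 * (n * (1 + e)) * t) := by
      have h7 : (n : ℝ) * (1 + e) * (t * t) ≤ n * (1 + e) * (2 * (e * m) * t) := by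
        have h8 : t * t ≤ 2 * (e * m) * t := by
          refine mul_le_mul_of_nonneg_right ?_ (by linarith)
          linarith
        exact mul_le_mul_of_nonneg_left h8 (by positivity)
      rw [ht2] at h7
      linarith
    have h7 : (e : ℝ) * m * (q / e) = m * q := by field_simp
    calc (e : ℝ) * m * N ≤ e * m * n + (q * n + (m + n * e) * q) := h3
      _ = m * q + e * m * n + (q * n + n * e * q) := by ring
      _ ≤ m * q + e * m * n + e * m * (2 * (n * (1 + e)) * t) := by linarith
      _ = e * m * (q / e + n + 2 * (n * (1 + e)) * t) := by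
          rw [← h7]; ring
  exact le_of_mul_le_mul_left h5 hpos

end count

section power

variable {F : Type*} [Field F] [Fintype F] [DecidableEq F]

/-- The number of `m`-th roots. -/
lemma card_roots_pow {m e h : ℕ} (hm : m ≠ 0) (he : e = Nat.gcd (Fintype.card F - 1) m)
    (hq : Fintype.card F = e * h + 1) {v : F} (hv : v ≠ 0) :
    (univ.filter fun y : F => y ^ m = v).card = if v ^ h = 1 then e else 0 := by
  have hcardu : Nat.card Fˣ = e * h := by
    rw [Nat.card_eq_fintype_card, Fintype.card_units, hq, Nat.add_sub_cancel]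
  have hem : e ∣ m := he ▸ Nat.gcd_dvd_right _ _
  have hepos : 0 < e := by
    rw [he]
    exact Nat.gcd_pos_of_pos_left _ (by have := Fintype.one_lt_card (α := F); omega)
  have hhpos : 0 < h := by
    rcases Nat.eq_zero_or_pos h with h0 | h0
    · have := Fintype.one_lt_card (α := F)
      rw [hq, h0] at this
      omega
    · exact h0
  have hgcd : (Nat.card Fˣ).gcd m = e := by
    rw [he, Nat.card_eq_fintype_card, Fintype.card_units]
  have hpow1 : ∀ w : Fˣ, w ^ (e * h) = 1 := by
    intro w
    rw [← hcardu]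
    exact pow_card_eq_one'
  -- to units
  have htr : (univ.filter fun y : F => y ^ m = v).card =
      (univ.filter fun y : Fˣ => powMonoidHom m y = Units.mk0 v hv).card := by
    refine Finset.card_bij' (fun y hy => Units.mk0 y (by
        rintro rfl
        rw [Finset.mem_filter, zero_pow hm] at hy
        exact hv hy.2.symm)) (fun y _ => (y : F)) ?_ ?_ ?_ ?_
    · intro y hy
      rw [Finset.mem_filter] at hy ⊢
      refine ⟨Finset.mem_univ _, Units.ext ?_⟩
      simpa using hy.2
    · intro y hy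
      rw [Finset.mem_filter] at hy ⊢
      refine ⟨Finset.mem_univ _, ?_⟩
      have := congrArg Units.val hy.2
      simpa using this
    · intro y _; rfl
    · intro y _; exact Units.ext rfl
  rw [htr]
  set w : Fˣ := Units.mk0 v hv with hw
  have hwh : v ^ h = 1 ↔ w ^ h = 1 := by
    rw [Units.ext_iff]
    simp [hw]
  -- the range
  have hrange : ∀ w : Fˣ, w ^ h = 1 ↔ w ∈ Set.range (powMonoidHom m : Fˣ →* Fˣ) := by
    have hsub : (univ.filter fun w : Fˣ => w ∈ Set.range (powMonoidHom m : Fˣ →* Fˣ)) ⊆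
        univ.filter fun w : Fˣ => w ^ h = 1 := by
      intro w hw
      rw [Finset.mem_filter] at hw ⊢
      refine ⟨Finset.mem_univ _, ?_⟩
      obtain ⟨y, hy⟩ := hw.2
      obtain ⟨c, hc⟩ := hem
      rw [← hy, powMonoidHom_apply, ← pow_mul, hc, show e * c * h = e * h * c by ring, pow_mul,
        hpow1, one_pow]
    have hc1 : (univ.filter fun w : Fˣ => w ^ h = 1).card ≤ h :=
      IsCyclic.card_pow_eq_one_le hhpos
    have hc2 : (univ.filter fun w : Fˣ => w ∈ Set.range (powMonoidHom m : Fˣ →* Fˣ)).card = h := by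
      have h1 := IsCyclic.card_powMonoidHom_range (G := Fˣ) m
      rw [hgcd, hcardu, Nat.mul_div_cancel_left _ hepos] at h1
      rw [← h1, Nat.card_eq_fintype_card, ← Fintype.card_coe]
      refine Fintype.card_congr (Equiv.subtypeEquivRight fun w => ?_)
      simp
    have heq := Finset.eq_of_subset_of_card_le hsub (by rw [hc2]; exact hc1)
    intro w
    have := congrArg (fun S => w ∈ S) heq
    simp only [Finset.mem_filter, Finset.mem_univ, true_and, eq_iff_iff] at this
    exact this.symm
  split_ifs with h1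
  · have h2 : w ∈ Set.range (powMonoidHom m : Fˣ →* Fˣ) := (hrange w).1 (hwh.1 h1)
    have h3 : (1 : Fˣ) ∈ Set.range (powMonoidHom m : Fˣ →* Fˣ) := ⟨1, map_one _⟩
    rw [MonoidHom.card_fiber_eq_of_mem_range (powMonoidHom m : Fˣ →* Fˣ) h2 h3]
    have h4 := IsCyclic.card_powMonoidHom_ker (G := Fˣ) m
    rw [hgcd] at h4
    rw [← h4, Nat.card_eq_fintype_card, ← Fintype.card_coe]
    refine Fintype.card_congr (Equiv.subtypeEquivRight fun w => ?_)
    simp [MonoidHom.mem_ker]
  · rw [Finset.card_eq_zero, Finset.filter_eq_empty_iff]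
    intro y _ h2
    exact h1 (hwh.2 ((hrange w).2 ⟨y, h2⟩))

end power

section main

variable {F : Type*} [Field F] [Fintype F] [DecidableEq F]

/-- The number of points of `y ^ m = f(x)`. -/
def affM (m : ℕ) (f : F[X]) : ℕ := (univ.filter fun P : F × F => P.2 ^ m = f.eval P.1).card

lemma affM_eq {m e h : ℕ} (hm : m ≠ 0) (he : e = Nat.gcd (Fintype.card F - 1) m)
    (hq : Fintype.card F = e * h + 1) (hh : h ≠ 0) (f : F[X]) :
    affM m f = (univ.filter fun x : F => f.eval x = 0).card +
      e * (univ.filter fun x : F => (f.eval x) ^ h = 1).card := by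
  rw [affM, Finset.card_filter, Fintype.sum_prod_type]
  have key : ∀ x : F, (∑ y : F, if y ^ m = f.eval x then 1 else 0) =
      (if f.eval x = 0 then 1 else 0) + e * (if (f.eval x) ^ h = 1 then 1 else 0) := by
    intro x
    rw [← Finset.card_filter]
    by_cases h0 : f.eval x = 0
    · rw [h0, zero_pow hh, if_pos rfl, if_neg zero_ne_one, mul_zero, add_zero,
        Finset.card_eq_one]
      refine ⟨0, ?_⟩
      ext y
      simp [hm]
    · rw [card_roots_pow hm he hq h0, if_neg h0, zero_add]
      split_ifs <;> simp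
  rw [Finset.sum_congr rfl fun x _ => key x, Finset.sum_add_distrib, ← Finset.mul_sum,
    Finset.card_filter, Finset.card_filter]

/-- the constant -/
def WCM (m n : ℕ) : ℕ := m * n + m ^ 2 * (n + 2 * (n * (1 + m))) + m * QQ n m

lemma QQ_mono (n : ℕ) {e m : ℕ} (h : e ≤ m) : QQ n e ≤ QQ n m := by
  unfold QQ
  gcongr

/-- **The Weil bound** (up to the constant) for `y ^ m = f(x)`, `gcd(m, deg f) = 1`. -/
theorem weilM {m : ℕ} (hm : m ≠ 0) (f : F[X]) (hn : f.natDegree ≠ 0)
    (hcop : Nat.Coprime f.natDegree m) :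
    |(affM m f : ℝ) - Fintype.card F| ≤ WCM m f.natDegree * Real.sqrt (Fintype.card F) := by
  obtain ⟨e, he⟩ : ∃ e, e = Nat.gcd (Fintype.card F - 1) m := ⟨_, rfl⟩
  have hem : e ∣ m := he ▸ Nat.gcd_dvd_right _ _
  have heq : e ∣ Fintype.card F - 1 := he ▸ Nat.gcd_dvd_left _ _
  obtain ⟨h, hh'⟩ := heq
  have hcard1 := Fintype.one_lt_card (α := F)
  have hq : Fintype.card F = e * h + 1 := by omega
  have hh : h ≠ 0 := by
    rintro rfl
    omega
  have hepos : 0 < e := by
    rcases Nat.eq_zero_or_pos e with h0 | h0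
    · rw [h0, zero_mul] at hq; omega
    · exact h0
  have hle : e ≤ m := Nat.le_of_dvd (Nat.pos_of_ne_zero hm) hem
  have hf0 : f ≠ 0 := by
    rintro rfl
    exact hn natDegree_zero
  set q : ℝ := (Fintype.card F : ℝ) with hqr
  set n : ℕ := f.natDegree with hnd
  set t := Real.sqrt q with ht
  have hq0 : (1 : ℝ) ≤ q := by rw [hqr]; exact_mod_cast hcard1.le
  have ht2 : t * t = q := Real.mul_self_sqrt (by linarith)
  have ht1 : 1 ≤ t := by rw [ht, Real.one_le_sqrt]; exact hq0
  set N0 := (univ.filter fun x : F => f.eval x = 0).card with hN0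
  set N : F → ℕ := fun a => (univ.filter fun x : F => (f.eval x) ^ h = a).card with hN
  have haff : (affM m f : ℝ) = N0 + e * N 1 := by
    rw [affM_eq hm he hq hh f]
    push_cast
    rfl
  have hN0n : (N0 : ℝ) ≤ n := by
    have h1 : N0 ≤ n := by
      refine le_trans (Finset.card_le_card ?_) ((Multiset.toFinset_card_le _).trans (card_roots' f))
      intro x hx
      rw [Finset.mem_filter] at hx
      rw [Multiset.mem_toFinset, mem_roots hf0]
      exact hx.2
    exact_mod_cast h1
  have hm1 : (1 : ℝ) ≤ m := by exact_mod_cast Nat.pos_of_ne_zero hm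
  have her : (e : ℝ) ≤ m := by exact_mod_cast hle
  have he0 : (0 : ℝ) < e := by exact_mod_cast hepos
  have hn0 : (0 : ℝ) ≤ n := Nat.cast_nonneg _
  have hN0' : (0 : ℝ) ≤ N0 := Nat.cast_nonneg _
  have hQ0 : (0 : ℝ) ≤ QQ n m := Nat.cast_nonneg _
  have hWC : (WCM m n : ℝ) = m * n + m ^ 2 * (n + 2 * (n * (1 + m))) + m * QQ n m := by
    rw [WCM]; push_cast; ring
  rw [hWC]
  -- sum over the roots of unity
  have hsum : (N0 : ℝ) + ∑ a ∈ univ.filter (fun a : F => a ^ e = 1), (N a : ℝ) = q := by
    have h1 : N0 + ∑ a ∈ univ.filter (fun a : F => a ^ e = 1), N a = Fintype.card F := by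
      have h2 : ∑ a ∈ univ.filter (fun a : F => a ^ e = 1), N a =
          (univ.filter fun x : F => ¬ f.eval x = 0).card := by
        rw [Finset.card_eq_sum_card_fiberwise (f := fun x => (f.eval x) ^ h)
          (t := univ.filter (fun a : F => a ^ e = 1))]
        · refine Finset.sum_congr rfl fun a ha => ?_
          show (univ.filter fun x : F => (f.eval x) ^ h = a).card = _
          refine congrArg Finset.card (Finset.ext fun x => ?_)
          simp only [Finset.mem_filter, Finset.mem_univ, true_and]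
          constructor
          · intro hx
            refine ⟨fun h0 => ?_, hx⟩
            rw [h0, zero_pow hh] at hx
            rw [Finset.mem_filter, ← hx, zero_pow hepos.ne'] at ha
            exact zero_ne_one ha.2
          · exact fun hx => hx.2
        · intro x hx
          simp only [Finset.coe_filter, Finset.mem_univ, true_and, Set.mem_ofPred_eq] at hx ⊢
          rw [← pow_mul, mul_comm h e]
          have h3 : e * h = Fintype.card F - 1 := by omega
          rw [h3]
          exact FiniteField.pow_card_sub_one_eq_one _ hx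
      rw [h2, hN0, Finset.card_filter_add_card_filter_not, Finset.card_univ]
    rw [hqr, ← h1]
    push_cast
    rfl
  have hcardmu : (univ.filter (fun a : F => a ^ e = 1)).card = e := by
    have h1 := card_roots_pow (F := F) (m := e) hepos.ne' (by
      rw [Nat.gcd_eq_right]
      exact ⟨h, hh'⟩) hq one_ne_zero
    rw [one_pow, if_pos rfl] at h1
    exact h1
  have h1mem : (1 : F) ∈ univ.filter (fun a : F => a ^ e = 1) :=
    Finset.mem_filter.2 ⟨Finset.mem_univ _, one_pow e⟩
  rw [haff]
  rcases Nat.lt_or_ge e 2 with he2 | he2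
  · -- `e = 1`
    have he1 : e = 1 := by omega
    have h1 : (N0 : ℝ) + N 1 = q := by
      rw [← hsum]
      congr 1
      rw [he1] at hcardmu
      obtain ⟨b, hb⟩ := Finset.card_eq_one.1 hcardmu
      rw [he1] at h1mem ⊢
      rw [hb] at h1mem ⊢
      rw [Finset.mem_singleton] at h1mem
      rw [Finset.sum_singleton, h1mem]
    rw [he1, Nat.cast_one, one_mul, h1, sub_self, abs_zero]
    positivity
  rcases Nat.lt_or_ge (Fintype.card F) (QQ n e) with hsmall | hbig
  · -- small fields
    have h1 : (0 : ℝ) ≤ N0 + e * N 1 :=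
      add_nonneg hN0' (mul_nonneg he0.le (Nat.cast_nonneg _))
    have h2 : (N0 : ℝ) + e * N 1 ≤ m * q := by
      have h3 : (N0 : ℝ) + N 1 ≤ q := by
        rw [← hsum]
        refine add_le_add le_rfl ?_
        exact Finset.single_le_sum (f := fun a => (N a : ℝ)) (fun a _ => Nat.cast_nonneg _) h1mem
      have h4 : (0 : ℝ) ≤ N 1 := Nat.cast_nonneg _
      nlinarith
    have h3 : |(N0 : ℝ) + e * N 1 - q| ≤ m * q := by
      rw [abs_le]
      constructor <;> nlinarith
    refine h3.trans ?_
    have h4 : q ≤ QQ n m := by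
      rw [hqr]
      exact_mod_cast (hsmall.le.trans (QQ_mono n hle))
    have h5 : t ≤ QQ n m := by nlinarith
    calc (m : ℝ) * q = m * t * t := by rw [← ht2]; ring
      _ ≤ m * QQ n m * t := by gcongr
      _ ≤ (m * n + m ^ 2 * (n + 2 * (n * (1 + m))) + m * QQ n m) * t := by
          gcongr
          have : (0 : ℝ) ≤ m * n + m ^ 2 * (n + 2 * (n * (1 + m))) := by positivity
          linarith
  · -- large fields
    have hcop' : Nat.Coprime n e := Nat.Coprime.coprime_dvd_right hem hcop
    set B : ℝ := n + 2 * (n * (1 + e)) * t with hB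
    have hB0 : 0 ≤ B := by positivity
    have hNa : ∀ a : F, (N a : ℝ) ≤ q / e + B := by
      intro a
      have h1 := card_realM he2 hq hcop' hn hbig a
      rw [hB, ← add_assoc]
      exact h1
    have hup := hNa 1
    have hlow : q - n - (e - 1) * (q / e + B) ≤ N 1 := by
      have h1 : ∑ a ∈ (univ.filter (fun a : F => a ^ e = 1)).erase 1, (N a : ℝ) ≤
          (e - 1) * (q / e + B) := by
        refine (Finset.sum_le_sum fun a _ => hNa a).trans ?_
        rw [Finset.sum_const, Finset.card_erase_of_mem h1mem, hcardmu, nsmul_eq_mul,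
          Nat.cast_sub (by omega), Nat.cast_one]
      have h2 := Finset.add_sum_erase _ (fun a => (N a : ℝ)) h1mem
      linarith
    have hqe : (e : ℝ) * (q / e) = q := by field_simp
    have he2r : (2 : ℝ) ≤ e := by exact_mod_cast he2
    have hupper : (N0 : ℝ) + e * N 1 - q ≤ n + e * B := by
      have : (e : ℝ) * N 1 ≤ e * (q / e + B) := mul_le_mul_of_nonneg_left hup he0.le
      rw [mul_add, hqe] at this
      linarith
    have hlower : -(e * n + e * (e - 1) * B) ≤ (N0 : ℝ) + e * N 1 - q := by
      have h1 : (e : ℝ) * (q - n - (e - 1) * (q / e + B)) ≤ e * N 1 :=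
        mul_le_mul_of_nonneg_left hlow he0.le
      have h2 : (e : ℝ) * (q - n - (e - 1) * (q / e + B)) =
          e * q - e * n - (e - 1) * (e * (q / e)) - e * (e - 1) * B := by ring
      rw [h2, hqe] at h1
      linarith
    have hbound : |(N0 : ℝ) + e * N 1 - q| ≤ m * n + m ^ 2 * B := by
      have h1 : (e : ℝ) * B ≤ m ^ 2 * B := by
        refine mul_le_mul_of_nonneg_right ?_ hB0
        nlinarith
      have h2 : (e : ℝ) * (e - 1) * B ≤ m ^ 2 * B := by
        refine mul_le_mul_of_nonneg_right ?_ hB0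
        nlinarith
      have h3 : (n : ℝ) ≤ m * n := by nlinarith
      have h4 : (e : ℝ) * n ≤ m * n := by gcongr
      rw [abs_le]
      constructor <;> linarith
    refine hbound.trans ?_
    have h1 : B ≤ (n + 2 * (n * (1 + m))) * t := by
      rw [hB]
      have h2 : (n : ℝ) ≤ n * t := by nlinarith
      have h3 : 2 * ((n : ℝ) * (1 + e)) * t ≤ 2 * (n * (1 + m)) * t := by gcongr
      linarith
    have h2 : (m : ℝ) * n ≤ m * n * t := by
      have : (0 : ℝ) ≤ m * n := by positivity
      nlinarith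
    calc (m : ℝ) * n + m ^ 2 * B ≤ m * n * t + m ^ 2 * ((n + 2 * (n * (1 + m))) * t) := by gcongr
      _ ≤ (m * n + m ^ 2 * (n + 2 * (n * (1 + m))) + m * QQ n m) * t := by
          have : (0 : ℝ) ≤ m * QQ n m * t := by positivity
          linarith

end main

end Pool.Agent.HJ66
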