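import Mathlib

/-!
# Stepanov's method for quadratic character sums of polynomials of odd degree

For every finite field `F` of odd characteristic with `q` elements and every polynomial `f` of odd
degree `n` over `F` we have `|∑ x, χ (f x)| ≤ 9 n √q`, where `χ` is the quadratic character.
-/

namespace Pool.Agent.HJ66

open Polynomial Finset

section hasse

variable {F : Type*} [Field F]

lemma pow_dvd_hasse (f : F[X]) (M k : ℕ) (hk : k ≤ M) : f ^ (M - k) ∣ hasseDeriv k (f ^ M) := by
  induction M generalizing k with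
  | zero =>
    obtain rfl : k = 0 := by omega
    simp
  | succ M ih =>
    rcases Nat.lt_or_ge M k with h | h
    · obtain rfl : k = M + 1 := by omega
      simp
    · rw [pow_succ, hasseDeriv_mul]
      refine Finset.dvd_sum fun ij hij => ?_
      rw [HasAntidiagonal.mem_antidiagonal] at hij
      rcases Nat.eq_zero_or_pos ij.2 with h0 | h0
      · rw [h0, hasseDeriv_zero', show ij.1 = k by omega,
          show M + 1 - k = (M - k) + 1 by omega, pow_succ]
        exact mul_dvd_mul (ih k h) dvd_rfl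
      · refine Dvd.dvd.mul_right ?_ _
        exact (pow_dvd_pow f (by omega)).trans (ih ij.1 (by omega))

lemma exists_quot (f : F[X]) (hf : f.natDegree ≠ 0) (M k : ℕ) :
    ∃ D : F[X], (k ≤ M → hasseDeriv k (f ^ M) = f ^ (M - k) * D) ∧
      D.natDegree ≤ k * (f.natDegree - 1) := by
  by_cases hk : k ≤ M
  · obtain ⟨D, hD⟩ := pow_dvd_hasse f M k hk
    by_cases h0 : hasseDeriv k (f ^ M) = 0
    · exact ⟨0, fun _ => by rw [h0, mul_zero], by simp⟩
    · refine ⟨D, fun _ => hD, ?_⟩
      have hD0 : D ≠ 0 := by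
        rintro rfl
        exact h0 (by rw [hD, mul_zero])
      have hf0 : f ≠ 0 := by
        rintro rfl
        exact hf natDegree_zero
      have h1 := natDegree_hasseDeriv_le (f ^ M) k
      rw [hD, natDegree_mul (pow_ne_zero _ hf0) hD0, natDegree_pow, natDegree_pow] at h1
      obtain ⟨m, hm⟩ : ∃ m, f.natDegree = m + 1 := ⟨f.natDegree - 1, by omega⟩
      obtain ⟨l, rfl⟩ : ∃ l, M = k + l := ⟨M - k, by omega⟩
      rw [hm] at h1 ⊢
      rw [Nat.add_sub_cancel_left] at h1
      rw [Nat.add_sub_cancel]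
      have h2 : k ≤ (k + l) * (m + 1) := by nlinarith
      have h3 : l * (m + 1) + D.natDegree + k ≤ (k + l) * (m + 1) := by omega
      nlinarith
  · exact ⟨0, fun h => absurd h hk, by simp⟩

/-- The quotient of the Hasse derivative of `f ^ M` by `f ^ (M - k)`. -/
noncomputable def quot (f : F[X]) (M k : ℕ) : F[X] :=
  if hf : f.natDegree ≠ 0 then (exists_quot f hf M k).choose else 0

lemma quot_spec {f : F[X]} (hf : f.natDegree ≠ 0) {M k : ℕ} (hk : k ≤ M) :
    hasseDeriv k (f ^ M) = f ^ (M - k) * quot f M k := by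
  rw [quot, dif_pos hf]
  exact (exists_quot f hf M k).choose_spec.1 hk

lemma quot_deg (f : F[X]) (M k : ℕ) : (quot f M k).natDegree ≤ k * (f.natDegree - 1) := by
  rw [quot]
  split_ifs with hf
  · exact (exists_quot f hf M k).choose_spec.2
  · simp

/-- The linear map `r ↦ E^k(f ^ M * r) / f ^ (M - k)`. -/
noncomputable def RR (f : F[X]) (M k : ℕ) : F[X] →ₗ[F] F[X] :=
  ∑ ij ∈ antidiagonal k, (LinearMap.mulLeft F (f ^ ij.2 * quot f M ij.1)) ∘ₗ hasseDeriv ij.2

lemma RR_apply (f : F[X]) (M k : ℕ) (r : F[X]) :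
    RR f M k r = ∑ ij ∈ antidiagonal k, f ^ ij.2 * quot f M ij.1 * hasseDeriv ij.2 r := by
  simp [RR, mul_assoc]

lemma hasse_pow_mul {f : F[X]} (hf : f.natDegree ≠ 0) {M k : ℕ} (hk : k ≤ M) (r : F[X]) :
    hasseDeriv k (f ^ M * r) = f ^ (M - k) * RR f M k r := by
  rw [hasseDeriv_mul, RR_apply, Finset.mul_sum]
  refine Finset.sum_congr rfl fun ij hij => ?_
  rw [HasAntidiagonal.mem_antidiagonal] at hij
  rw [quot_spec hf (by omega), show M - ij.1 = (M - k) + ij.2 by omega, pow_add]
  ring

lemma RR_deg (f : F[X]) (hf : f.natDegree ≠ 0) (M k d : ℕ) {r : F[X]} (hr : r ∈ degreeLT F d) :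
    RR f M k r ∈ degreeLT F (d + k * (f.natDegree - 1)) := by
  rw [RR_apply]
  refine Submodule.sum_mem _ fun ij hij => ?_
  rw [HasAntidiagonal.mem_antidiagonal] at hij
  by_cases h0 : hasseDeriv ij.2 r = 0
  · rw [h0, mul_zero]; exact Submodule.zero_mem _
  · have h1 : ij.2 ≤ r.natDegree := by
      by_contra h
      exact h0 (hasseDeriv_eq_zero_of_lt_natDegree _ _ (by omega))
    have hr0 : r ≠ 0 := by
      rintro rfl
      exact h0 (map_zero _)
    have h2 : r.natDegree < d := by
      rw [mem_degreeLT, degree_eq_natDegree hr0] at hr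
      exact_mod_cast hr
    by_cases h4 : f ^ ij.2 * quot f M ij.1 * hasseDeriv ij.2 r = 0
    · rw [h4]; exact Submodule.zero_mem _
    rw [mem_degreeLT, degree_eq_natDegree h4]
    have h3 : (f ^ ij.2 * quot f M ij.1 * hasseDeriv ij.2 r).natDegree ≤
        ij.2 * f.natDegree + ij.1 * (f.natDegree - 1) + (r.natDegree - ij.2) := by
      refine natDegree_mul_le.trans (Nat.add_le_add ?_ (natDegree_hasseDeriv_le _ _))
      refine natDegree_mul_le.trans (Nat.add_le_add ?_ (quot_deg _ _ _))
      exact natDegree_pow_le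
    obtain ⟨m, hm⟩ : ∃ m, f.natDegree = m + 1 := ⟨f.natDegree - 1, by omega⟩
    rw [hm, Nat.add_sub_cancel] at h3
    rw [hm, Nat.add_sub_cancel]
    have h5 : ij.2 * (m + 1) + ij.1 * m + (r.natDegree - ij.2) = k * m + r.natDegree := by
      rw [← hij]
      obtain ⟨t, ht⟩ := Nat.exists_eq_add_of_le h1
      rw [ht, Nat.add_sub_cancel_left]
      ring
    have h6 : (f ^ ij.2 * quot f M ij.1 * hasseDeriv ij.2 r).natDegree < d + k * m := by omega
    exact_mod_cast h6

end hasse

section digits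

variable {F : Type*} [Field F]

/-- The polynomial `∑ r_j X^{jq}`. -/
noncomputable def dig (q : ℕ) {J : ℕ} (r : Fin J → F[X]) : F[X] :=
  ∑ j : Fin J, r j * X ^ ((j : ℕ) * q)

lemma coeff_dig (q : ℕ) {J : ℕ} (r : Fin J → F[X]) (m : ℕ) :
    (dig q r).coeff m = ∑ j : Fin J, if (j : ℕ) * q ≤ m then (r j).coeff (m - (j : ℕ) * q) else 0 := by
  rw [dig, finsetSum_coeff]
  refine Finset.sum_congr rfl fun j _ => ?_
  rw [coeff_mul_X_pow']

lemma dig_mod {q d : ℕ} (hd : d ≤ q) {J : ℕ} {r : Fin J → F[X]} (hr : ∀ j, r j ∈ degreeLT F d)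
    (h : dig q r ≠ 0) : (dig q r).natDegree % q < d := by
  have h1 : (dig q r).coeff (dig q r).natDegree ≠ 0 := by
    rwa [coeff_natDegree, leadingCoeff_ne_zero]
  rw [coeff_dig] at h1
  obtain ⟨j, -, hj⟩ := Finset.exists_ne_zero_of_sum_ne_zero h1
  split_ifs at hj with h2
  · have h3 : (dig q r).natDegree - (j : ℕ) * q < d := by
      by_contra h4
      refine hj (coeff_eq_zero_of_degree_lt ?_)
      have := hr j
      rw [mem_degreeLT] at this
      refine this.trans_le ?_
      exact_mod_cast not_lt.1 h4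
    obtain ⟨t, ht⟩ := Nat.exists_eq_add_of_le h2
    rw [ht, Nat.add_sub_cancel_left] at h3
    rw [ht, mul_comm, Nat.mul_add_mod, Nat.mod_eq_of_lt (h3.trans_le hd)]
    exact h3
  · exact absurd rfl hj

lemma dig_ne_zero {q d : ℕ} (hd : d ≤ q) {J : ℕ} {r : Fin J → F[X]}
    (hr : ∀ j, r j ∈ degreeLT F d) {j : Fin J} (h : r j ≠ 0) : dig q r ≠ 0 := by
  have hdj : (r j).natDegree < d := by
    have := hr j
    rw [mem_degreeLT, degree_eq_natDegree h] at this
    exact_mod_cast this
  intro h0
  have h1 := coeff_dig q r ((j : ℕ) * q + (r j).natDegree)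
  rw [h0, coeff_zero, Finset.sum_eq_single j] at h1
  · rw [if_pos (by omega), Nat.add_sub_cancel_left, coeff_natDegree] at h1
    exact h (leadingCoeff_eq_zero.1 h1.symm)
  · intro i _ hij
    split_ifs with h2
    · refine coeff_eq_zero_of_degree_lt ?_
      have h3 := hr i
      rw [mem_degreeLT] at h3
      refine h3.trans_le ?_
      have h4 : (i : ℕ) < j := by
        by_contra h5
        have h6 : (j : ℕ) + 1 ≤ i := by
          have : (i : ℕ) ≠ j := fun h => hij (Fin.ext h)
          omega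
        have h7 := Nat.mul_le_mul_right q h6
        rw [Nat.add_mul, one_mul] at h7
        omega
      have h8 : d ≤ (j : ℕ) * q + (r j).natDegree - (i : ℕ) * q := by
        have h7 := Nat.mul_le_mul_right q h4
        rw [Nat.succ_mul] at h7
        omega
      exact_mod_cast h8
    · rfl
  · intro h
    exact absurd (Finset.mem_univ _) h

lemma dig_deg {q d : ℕ} {J : ℕ} {r : Fin J → F[X]}
    (hr : ∀ j, r j ∈ degreeLT F d) : dig q r ∈ degreeLT F (d + (J - 1) * q) := by
  rw [dig]
  refine Submodule.sum_mem _ fun j _ => ?_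
  have h1 := hr j
  rw [mem_degreeLT] at h1 ⊢
  by_cases h0 : r j = 0
  · rw [h0, zero_mul, degree_zero]; exact WithBot.bot_lt_coe _
  rw [degree_mul, degree_X_pow, degree_eq_natDegree h0] at *
  have h2 : (r j).natDegree < d := by exact_mod_cast h1
  have h3 : (j : ℕ) * q ≤ (J - 1) * q := Nat.mul_le_mul_right q (by omega)
  exact_mod_cast (show (r j).natDegree + (j : ℕ) * q < d + (J - 1) * q by omega)

end digits


section vanish

variable {F : Type*} [Field F]

lemma X_pow_card_sub [Fintype F] (x : F) :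
    (X : F[X]) ^ Fintype.card F - C x = (X - C x) ^ Fintype.card F := by
  obtain ⟨p, hp⟩ := CharP.exists F
  obtain ⟨n, hpp, hq⟩ := FiniteField.card F p
  have : Fact p.Prime := ⟨hpp⟩
  rw [hq, sub_pow_char_pow, ← C_pow, ← hq, FiniteField.pow_card]

lemma dvd_dig_sub [Fintype F] {J : ℕ} (r : Fin J → F[X]) (x : F) :
    (X - C x) ^ Fintype.card F ∣ dig (Fintype.card F) r - ∑ j : Fin J, (x ^ (j : ℕ)) • r j := by
  rw [dig, ← Finset.sum_sub_distrib]
  refine Finset.dvd_sum fun j _ => ?_
  have h1 : r j * X ^ ((j : ℕ) * Fintype.card F) - (x ^ (j : ℕ)) • r j =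
      r j * ((X ^ Fintype.card F) ^ (j : ℕ) - (C x) ^ (j : ℕ)) := by
    rw [smul_eq_C_mul, C_pow, mul_comm (j : ℕ), pow_mul]
    ring
  rw [h1, ← X_pow_card_sub]
  exact Dvd.dvd.mul_left (sub_dvd_pow_sub_pow _ _ _) _

lemma pow_dvd_of_hasse {p : F[X]} {x : F} {M : ℕ}
    (h : ∀ k < M, (hasseDeriv k p).eval x = 0) : (X - C x) ^ M ∣ p := by
  rw [X_sub_C_pow_dvd_iff, ← taylor_apply, X_pow_dvd_iff]
  intro k hk
  rw [taylor_coeff]
  exact h k hk

/-- The auxiliary polynomial. -/
noncomputable def aux [Fintype F] (f : F[X]) (M h : ℕ) {J : ℕ} (r s : Fin J → F[X]) : F[X] :=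
  f ^ M * (dig (Fintype.card F) r + f ^ h * dig (Fintype.card F) s)

/-- The conditions. -/
noncomputable def WW (f : F[X]) (M h k : ℕ) (a : F) {J : ℕ} (r s : Fin J → F[X]) : F[X] :=
  ∑ j : Fin J, X ^ (j : ℕ) * (RR f M k (r j) + a • RR f (M + h) k (s j))

lemma aux_vanish [Fintype F] {f : F[X]} (hf : f.natDegree ≠ 0) {M h : ℕ} {a : F} {J : ℕ}
    (r s : Fin J → F[X]) (hM : M ≤ Fintype.card F) (hW : ∀ k < M, WW f M h k a r s = 0)
    {x : F} (hx : (f.eval x) ^ h = a) : (X - C x) ^ M ∣ aux f M h r s := by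
  set P : F[X] := ∑ j : Fin J, (x ^ (j : ℕ)) • (f ^ M * r j + f ^ (M + h) * s j) with hP
  have h1 : (X - C x) ^ M ∣ aux f M h r s - P := by
    have e : aux f M h r s - P =
        f ^ M * ((dig (Fintype.card F) r - ∑ j : Fin J, (x ^ (j : ℕ)) • r j) +
          f ^ h * (dig (Fintype.card F) s - ∑ j : Fin J, (x ^ (j : ℕ)) • s j)) := by
      have e2 : P = f ^ M * (∑ j : Fin J, (x ^ (j : ℕ)) • r j) +
          f ^ M * (f ^ h * ∑ j : Fin J, (x ^ (j : ℕ)) • s j) := by
        rw [hP, Finset.mul_sum, Finset.mul_sum, Finset.mul_sum, ← Finset.sum_add_distrib]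
        refine Finset.sum_congr rfl fun j _ => ?_
        rw [smul_eq_C_mul, smul_eq_C_mul, smul_eq_C_mul, pow_add]
        ring
      rw [e2, aux]
      ring
    rw [e]
    have h2 := (pow_dvd_pow (X - C x) hM)
    exact Dvd.dvd.mul_left (dvd_add (h2.trans (dvd_dig_sub r x))
      (Dvd.dvd.mul_left (h2.trans (dvd_dig_sub s x)) _)) _
  have h2 : (X - C x) ^ M ∣ P := by
    refine pow_dvd_of_hasse fun k hk => ?_
    rw [hP, map_sum]
    have h3 : ∀ j : Fin J, hasseDeriv k ((x ^ (j : ℕ)) • (f ^ M * r j + f ^ (M + h) * s j)) =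
        (x ^ (j : ℕ)) • (f ^ (M - k) * (RR f M k (r j) + f ^ h * RR f (M + h) k (s j))) := by
      intro j
      rw [map_smul, map_add, hasse_pow_mul hf hk.le, hasse_pow_mul hf (by omega),
        show M + h - k = (M - k) + h by omega, pow_add]
      congr 1
      ring
    rw [Finset.sum_congr rfl fun j _ => h3 j, eval_finsetSum]
    have h4 := congrArg (eval x) (hW k hk)
    rw [WW, eval_finsetSum, eval_zero] at h4
    calc ∑ j : Fin J, eval x ((x ^ (j : ℕ)) •
          (f ^ (M - k) * (RR f M k (r j) + f ^ h * RR f (M + h) k (s j))))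
        = (f.eval x) ^ (M - k) * ∑ j : Fin J,
            eval x (X ^ (j : ℕ) * (RR f M k (r j) + a • RR f (M + h) k (s j))) := by
          rw [Finset.mul_sum]
          refine Finset.sum_congr rfl fun j _ => ?_
          simp only [eval_smul, eval_mul, eval_pow, eval_add, eval_X, hx, smul_eq_mul]
          ring
      _ = 0 := by rw [h4, mul_zero]
  have h3 := dvd_add h1 h2
  rwa [sub_add_cancel] at h3

/-- nonvanishing -/
lemma aux_ne_zero [Fintype F] {f : F[X]} {g d h : ℕ} (hf : f.natDegree = 2 * g + 1)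
    (hh : Fintype.card F = 2 * h + 1) (hd : Fintype.card F = 2 * d + f.natDegree) (M : ℕ)
    {J : ℕ} {r s : Fin J → F[X]} (hr : ∀ j, r j ∈ degreeLT F d) (hs : ∀ j, s j ∈ degreeLT F d)
    (hne : (∃ j, r j ≠ 0) ∨ ∃ j, s j ≠ 0) : aux f M h r s ≠ 0 := by
  have hf0 : f ≠ 0 := by
    rintro rfl
    rw [natDegree_zero] at hf
    omega
  have hdq : d ≤ Fintype.card F := by omega
  rw [aux]
  refine mul_ne_zero (pow_ne_zero _ hf0) ?_
  intro h0
  by_cases hs0 : dig (Fintype.card F) s = 0
  · rw [hs0, mul_zero, add_zero] at h0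
    rcases hne with ⟨j, hj⟩ | ⟨j, hj⟩
    · exact dig_ne_zero hdq hr hj h0
    · exact dig_ne_zero hdq hs hj hs0
  · have h1 : dig (Fintype.card F) r = - (f ^ h * dig (Fintype.card F) s) :=
      eq_neg_of_add_eq_zero_left h0
    have h2 : dig (Fintype.card F) r ≠ 0 := by
      rw [h1]
      exact neg_ne_zero.2 (mul_ne_zero (pow_ne_zero _ hf0) hs0)
    have h3 := dig_mod hdq hr h2
    have h4 := dig_mod hdq hs hs0
    rw [h1, natDegree_neg, natDegree_mul (pow_ne_zero _ hf0) hs0, natDegree_pow] at h3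
    set N := (dig (Fintype.card F) s).natDegree with hN
    have h5 : h * f.natDegree = Fintype.card F * g + d := by
      have : h = g + d := by omega
      rw [hd, hf, this]
      ring
    rw [h5, add_assoc, Nat.mul_add_mod] at h3
    have h6 : (d + N) % Fintype.card F = d + N % Fintype.card F := by
      rw [Nat.add_mod, Nat.mod_eq_of_lt (show d < Fintype.card F by omega)]
      exact Nat.mod_eq_of_lt (by omega)
    omega

lemma exists_aux {f : F[X]} (hf : f.natDegree ≠ 0) {d h M J : ℕ} (a : F)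
    (hdim : ∑ k ∈ range M, (d + k * (f.natDegree - 1) + J) < 2 * (J * d)) :
    ∃ r s : Fin J → F[X], (∀ j, r j ∈ degreeLT F d) ∧ (∀ j, s j ∈ degreeLT F d) ∧
      ((∃ j, r j ≠ 0) ∨ ∃ j, s j ≠ 0) ∧ ∀ k < M, WW f M h k a r s = 0 := by
  set W : ℕ → ((Fin J → degreeLT F d) × (Fin J → degreeLT F d)) →ₗ[F] F[X] := fun k =>
    ∑ j : Fin J, (LinearMap.mulLeft F (X ^ (j : ℕ))) ∘ₗ
      ((RR f M k ∘ₗ (degreeLT F d).subtype ∘ₗ LinearMap.proj j ∘ₗ LinearMap.fst F _ _) +
        a • (RR f (M + h) k ∘ₗ (degreeLT F d).subtype ∘ₗ LinearMap.proj j ∘ₗ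
          LinearMap.snd F _ _)) with hW
  have hWa : ∀ k v, W k v = WW f M h k a (fun j => (v.1 j : F[X])) (fun j => (v.2 j : F[X])) := by
    intro k v
    simp [hW, WW]
  set L : ((Fin J → degreeLT F d) × (Fin J → degreeLT F d)) →ₗ[F]
      ((k : Fin M) → Fin (d + (k : ℕ) * (f.natDegree - 1) + J) → F) :=
    LinearMap.pi fun k => LinearMap.pi fun i => (lcoeff F (i : ℕ)) ∘ₗ W k with hL
  have hfin : Module.finrank F ((k : Fin M) → Fin (d + (k : ℕ) * (f.natDegree - 1) + J) → F) <
      Module.finrank F ((Fin J → degreeLT F d) × (Fin J → degreeLT F d)) := by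
    rw [Module.finrank_pi_fintype]
    have e1 : Module.finrank F (degreeLT F d) = d := by
      rw [(degreeLTEquiv F d).finrank_eq, Module.finrank_fin_fun]
    have e2 : Module.Finite F (degreeLT F d) :=
      Module.Finite.equiv (degreeLTEquiv F d).symm
    rw [Module.finrank_prod, Module.finrank_pi_fintype]
    simp only [Module.finrank_fin_fun, e1, Finset.sum_const, Finset.card_univ, Fintype.card_fin,
      smul_eq_mul]
    rw [Fin.sum_univ_eq_sum_range (fun k => d + k * (f.natDegree - 1) + J)]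
    omega
  have e2 : Module.Finite F (degreeLT F d) :=
    Module.Finite.equiv (degreeLTEquiv F d).symm
  have hker := LinearMap.ker_ne_bot_of_finrank_lt (f := L) hfin
  obtain ⟨v, hv, hv0⟩ := (Submodule.ne_bot_iff _).1 hker
  rw [LinearMap.mem_ker] at hv
  refine ⟨fun j => v.1 j, fun j => v.2 j, fun j => (v.1 j).2, fun j => (v.2 j).2, ?_, ?_⟩
  · by_contra hcon
    push Not at hcon
    refine hv0 (Prod.ext ?_ ?_)
    · funext j
      exact Subtype.ext (hcon.1 j)
    · funext j
      exact Subtype.ext (hcon.2 j)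
  · intro k hk
    rw [← hWa]
    have h1 : W k v ∈ degreeLT F (d + k * (f.natDegree - 1) + J) := by
      rw [hWa, WW]
      refine Submodule.sum_mem _ fun j _ => ?_
      set p := (RR f M k (v.1 j : F[X]) + a • RR f (M + h) k (v.2 j : F[X])) with hp
      have h2 : p ∈ degreeLT F (d + k * (f.natDegree - 1)) :=
        Submodule.add_mem _ (RR_deg f hf _ _ _ (v.1 j).2)
          (Submodule.smul_mem _ _ (RR_deg f hf _ _ _ (v.2 j).2))
      by_cases h0 : p = 0
      · rw [h0, mul_zero]; exact Submodule.zero_mem _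
      rw [mem_degreeLT] at h2 ⊢
      rw [degree_mul, degree_X_pow, degree_eq_natDegree h0] at *
      have h3 : p.natDegree < d + k * (f.natDegree - 1) := by exact_mod_cast h2
      have h4 := j.2
      exact_mod_cast (show (j : ℕ) + p.natDegree < d + k * (f.natDegree - 1) + J by omega)
    ext i
    rw [coeff_zero]
    by_cases hi : i < d + k * (f.natDegree - 1) + J
    · have h2 := congrFun (congrFun hv ⟨k, hk⟩) ⟨i, hi⟩
      simpa [hL] using h2
    · refine coeff_eq_zero_of_degree_lt ?_
      rw [mem_degreeLT] at h1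
      refine h1.trans_le ?_
      exact_mod_cast not_lt.1 hi

end vanish

section count

variable {F : Type*} [Field F] [Fintype F]

lemma aux_deg (f : F[X]) (M h : ℕ) {d J : ℕ} {r s : Fin J → F[X]}
    (hr : ∀ j, r j ∈ degreeLT F d) (hs : ∀ j, s j ∈ degreeLT F d) :
    (aux f M h r s).natDegree ≤
      M * f.natDegree + (h * f.natDegree + (d + (J - 1) * Fintype.card F)) := by
  have key : ∀ t : Fin J → F[X], (∀ j, t j ∈ degreeLT F d) →
      (dig (Fintype.card F) t).natDegree ≤ d + (J - 1) * Fintype.card F := by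
    intro t ht
    have h1 := dig_deg (q := Fintype.card F) ht
    rw [mem_degreeLT] at h1
    exact natDegree_le_of_degree_le h1.le
  rw [aux]
  refine natDegree_mul_le.trans (Nat.add_le_add natDegree_pow_le ?_)
  refine (natDegree_add_le _ _).trans (max_le ?_ ?_)
  · exact (key r hr).trans (Nat.le_add_left _ _)
  · exact natDegree_mul_le.trans (Nat.add_le_add natDegree_pow_le (key s hs))

/-- The main estimate: few solutions of `f(x)^h = a`. -/
lemma card_le {f : F[X]} [DecidableEq F] {g d h M J : ℕ} (hf : f.natDegree = 2 * g + 1)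
    (hh : Fintype.card F = 2 * h + 1) (hd : Fintype.card F = 2 * d + f.natDegree)
    (hM : M ≤ Fintype.card F) (a : F)
    (hdim : ∑ k ∈ range M, (d + k * (f.natDegree - 1) + J) < 2 * (J * d)) :
    M * (univ.filter fun x : F => (f.eval x) ^ h = a).card ≤
      M * f.natDegree + (h * f.natDegree + (d + (J - 1) * Fintype.card F)) := by
  obtain ⟨r, s, hr, hs, hne, hW⟩ := exists_aux (h := h) (by omega) a hdim
  have h0 := aux_ne_zero hf hh hd M hr hs hne
  refine le_trans ?_ (aux_deg f M h hr hs)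
  refine le_trans ?_ (card_roots' (aux f M h r s))
  have h1 : ∀ x ∈ univ.filter (fun x : F => (f.eval x) ^ h = a),
      M ≤ (aux f M h r s).roots.count x := by
    intro x hx
    rw [Finset.mem_filter] at hx
    rw [count_roots]
    exact (le_rootMultiplicity_iff h0).2 (aux_vanish (by omega) r s hM hW hx.2)
  calc M * (univ.filter fun x : F => (f.eval x) ^ h = a).card
      = ∑ x ∈ univ.filter (fun x : F => (f.eval x) ^ h = a), M := by
        rw [Finset.sum_const, smul_eq_mul, mul_comm]
    _ ≤ ∑ x ∈ univ.filter (fun x : F => (f.eval x) ^ h = a), (aux f M h r s).roots.count x :=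
        Finset.sum_le_sum h1
    _ ≤ ∑ x : F, (aux f M h r s).roots.count x :=
        Finset.sum_le_sum_of_subset (Finset.filter_subset _ _)
    _ = Multiset.card (aux f M h r s).roots := by
        exact Multiset.sum_count_eq_card fun x _ => Finset.mem_univ x

lemma card_real {f : F[X]} [DecidableEq F] {g h : ℕ} (hf : f.natDegree = 2 * g + 1)
    (hh : Fintype.card F = 2 * h + 1) (hq : 4 * f.natDegree + 16 ≤ Fintype.card F) (a : F) :
    ((univ.filter fun x : F => (f.eval x) ^ h = a).card : ℝ) ≤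
      (Fintype.card F : ℝ) / 2 + f.natDegree +
        (3 * f.natDegree - 1) * Real.sqrt (Fintype.card F) := by
  set q := Fintype.card F with hqd
  set n := f.natDegree with hn
  set m := Nat.sqrt q / 2 with hm
  have hs1 : Nat.sqrt q * Nat.sqrt q ≤ q := Nat.sqrt_le q
  have hs2 : q < (Nat.sqrt q + 1) * (Nat.sqrt q + 1) := Nat.lt_succ_sqrt q
  have hm1 : 2 * m ≤ Nat.sqrt q := by omega
  have hm2 : Nat.sqrt q + 1 ≤ 2 * m + 2 := by omega
  have hs4 : 4 ≤ Nat.sqrt q := Nat.le_sqrt.2 (by omega)
  have hmq : 4 * (m * m) ≤ q := by nlinarith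
  obtain ⟨d, hd⟩ : ∃ d, q = 2 * d + n := ⟨(q - n) / 2, by omega⟩
  have hMq : 2 * m ≤ q := by
    have := Nat.sqrt_le_self q
    omega
  have hdim : ∑ k ∈ range (2 * m), (d + k * (n - 1) + (m + n)) < 2 * ((m + n) * d) := by
    rw [Finset.sum_add_distrib, Finset.sum_add_distrib, ← Finset.sum_mul]
    simp only [Finset.sum_const, card_range, smul_eq_mul]
    have h1 := Finset.sum_range_id_mul_two (2 * m)
    obtain ⟨n', hn'⟩ : ∃ n', n = n' + 1 := ⟨n - 1, by omega⟩
    have h2 : (∑ i ∈ range (2 * m), i) ≤ 2 * (m * m) := by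
      have : 2 * m * (2 * m - 1) ≤ 4 * (m * m) := by
        calc 2 * m * (2 * m - 1) ≤ 2 * m * (2 * m) := Nat.mul_le_mul_left _ (by omega)
          _ = 4 * (m * m) := by ring
      omega
    have h3 : (∑ i ∈ range (2 * m), i) * (n - 1) ≤ 2 * (m * m) * (n - 1) :=
      Nat.mul_le_mul_right _ h2
    rw [hn'] at h3 hd hq ⊢
    rw [Nat.add_sub_cancel] at h3 ⊢
    have h4 : 2 * (m * m) + 2 * m + (n' + 1) < q := by nlinarith [sq_nonneg ((m : ℤ) - 1)]
    have h5 : 2 * (m * m) + 2 * m + (n' + 1) + 1 ≤ 2 * d + (n' + 1) := by omega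
    nlinarith
  have h1 := card_le hf hh hd hMq a hdim
  set N := (univ.filter fun x : F => (f.eval x) ^ h = a).card with hN
  have h2 : ((2 * m * N : ℕ) : ℝ) ≤
      ((2 * m * n + (h * n + (d + (m + n - 1) * q)) : ℕ) : ℝ) := by exact_mod_cast h1
  have hn1 : 1 ≤ m + n := by omega
  push_cast [Nat.cast_sub hn1] at h2
  have hqr : (q : ℝ) = 2 * h + 1 := by exact_mod_cast hh
  have hdr : (q : ℝ) = 2 * d + n := by exact_mod_cast hd
  have hn0 : (1 : ℝ) ≤ n := by exact_mod_cast (show 1 ≤ n by omega)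
  set t := Real.sqrt q with ht
  have ht2 : t * t = q := Real.mul_self_sqrt (by positivity)
  have ht4 : 4 ≤ t := by
    rw [ht]
    have : (4 : ℝ) = Real.sqrt 16 := by
      rw [show (16 : ℝ) = 4 ^ 2 by norm_num, Real.sqrt_sq (by norm_num)]
    rw [this]
    exact Real.sqrt_le_sqrt (by exact_mod_cast (show 16 ≤ q by omega))
  have hmt : t ≤ 2 * m + 2 := by
    have h3 : t ≤ ((Nat.sqrt q + 1 : ℕ) : ℝ) := by
      rw [ht, Real.sqrt_le_left (by positivity), sq]
      exact_mod_cast hs2.le
    refine h3.trans ?_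
    exact_mod_cast hm2
  have hm0 : t / 4 ≤ m := by linarith
  have hm00 : (0 : ℝ) < m := by linarith
  have h5 : 2 * (m : ℝ) * N ≤ 2 * m * (q / 2 + n + (3 * n - 1) * t) := by
    have h6 : (q : ℝ) * (3 * n - 1) / 2 ≤ 2 * m * ((3 * n - 1) * t) := by
      rw [← ht2]
      have h7 : t * t * (3 * n - 1) ≤ 4 * m * t * (3 * n - 1) := by
        have h8 : 0 ≤ t * (3 * (n : ℝ) - 1) := mul_nonneg (by linarith) (by linarith)
        nlinarith
      linarith
    have h8 : (h : ℝ) * n ≤ q * n / 2 := by
      rw [hqr]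
      nlinarith
    have h9 : (d : ℝ) ≤ q / 2 := by linarith
    nlinarith
  exact le_of_mul_le_mul_left h5 (by positivity)

end count

section main

variable {F : Type*} [Field F] [Fintype F] [DecidableEq F]

/-- **The Weil bound** (up to the constant) for quadratic character sums of polynomials of odd
degree. -/
theorem weil_odd (h2 : ringChar F ≠ 2) (f : F[X]) (hf : Odd f.natDegree) :
    |((∑ x : F, quadraticChar F (f.eval x) : ℤ) : ℝ)| ≤
      9 * f.natDegree * Real.sqrt (Fintype.card F) := by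
  obtain ⟨g, hg⟩ := hf
  have hodd := FiniteField.odd_card_of_char_ne_two h2
  set h := Fintype.card F / 2 with hh
  have hh' : Fintype.card F = 2 * h + 1 := by omega
  have hf0 : f ≠ 0 := by
    rintro rfl
    rw [natDegree_zero] at hg
    omega
  have hone : (-1 : F) ≠ 1 := Ring.neg_one_ne_one_of_char_ne_two h2
  set N : F → ℕ := fun a => (univ.filter fun x : F => (f.eval x) ^ h = a).card with hN
  have hn1 : (1 : ℝ) ≤ f.natDegree := by exact_mod_cast (show 1 ≤ f.natDegree by omega)
  have hchi : ∀ v : F, quadraticChar F v =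
      (if v ^ h = 1 then 1 else 0) - (if v ^ h = -1 then 1 else 0) := by
    intro v
    have h3 : ((quadraticChar F v : ℤ) : F) = v ^ h :=
      quadraticChar_eq_pow_of_char_ne_two' h2 v
    by_cases hv : v = 0
    · have h4 : h ≠ 0 := by
        have := Fintype.one_lt_card (α := F)
        omega
      rw [hv, zero_pow h4, if_neg zero_ne_one, if_neg (by
        intro h5; exact one_ne_zero (neg_eq_zero.1 h5.symm))]
      simp
    · rcases quadraticChar_dichotomy hv with h4 | h4
      · rw [h4] at h3 ⊢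
        rw [← h3]
        simp [hone.symm]
      · rw [h4] at h3 ⊢
        rw [← h3]
        simp [hone]
  have hsum : ((∑ x : F, quadraticChar F (f.eval x) : ℤ) : ℝ) = (N 1 : ℝ) - N (-1) := by
    rw [Finset.sum_congr rfl fun x _ => hchi (f.eval x), Finset.sum_sub_distrib,
      Finset.sum_boole, Finset.sum_boole]
    push_cast
    rfl
  have hcard : (N 1 : ℝ) + N (-1) ≤ Fintype.card F := by
    have h3 : N 1 + N (-1) ≤ Fintype.card F := by
      rw [hN]
      show (univ.filter fun x : F => (f.eval x) ^ h = 1).card +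
        (univ.filter fun x : F => (f.eval x) ^ h = -1).card ≤ _
      rw [← Finset.card_union_of_disjoint]
      · exact Finset.card_le_univ _
      · rw [Finset.disjoint_filter]
        intro x _ h4 h5
        exact hone (h5.symm.trans h4)
    exact_mod_cast h3
  have hcard2 : (Fintype.card F : ℝ) ≤ (N 1 : ℝ) + N (-1) + f.natDegree := by
    have h3 : Fintype.card F ≤ N 1 + N (-1) + f.natDegree := by
      have h4 : (univ : Finset F) ⊆ (univ.filter fun x : F => (f.eval x) ^ h = 1) ∪
          (univ.filter fun x : F => (f.eval x) ^ h = -1) ∪ f.roots.toFinset := by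
        intro x _
        rw [Finset.mem_union, Finset.mem_union, Finset.mem_filter, Finset.mem_filter,
          Multiset.mem_toFinset, mem_roots hf0, IsRoot.def]
        by_cases hx : f.eval x = 0
        · exact Or.inr hx
        · have h3 : ((quadraticChar F (f.eval x) : ℤ) : F) = (f.eval x) ^ h :=
            quadraticChar_eq_pow_of_char_ne_two' h2 _
          rcases quadraticChar_dichotomy hx with h4 | h4
          · refine Or.inl (Or.inl ⟨Finset.mem_univ _, ?_⟩)
            rw [← h3, h4]; simp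
          · refine Or.inl (Or.inr ⟨Finset.mem_univ _, ?_⟩)
            rw [← h3, h4]; simp
      have h5 := Finset.card_le_card h4
      rw [Finset.card_univ] at h5
      refine h5.trans ((Finset.card_union_le _ _).trans (Nat.add_le_add
        (Finset.card_union_le _ _) ?_))
      exact (Multiset.toFinset_card_le _).trans (card_roots' f)
    exact_mod_cast h3
  rw [hsum]
  set t := Real.sqrt (Fintype.card F) with ht
  have ht2 : t * t = Fintype.card F := Real.mul_self_sqrt (by positivity)
  have ht1 : 1 ≤ t := by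
    rw [ht, Real.one_le_sqrt]
    exact_mod_cast Fintype.card_pos
  by_cases hq : 4 * f.natDegree + 16 ≤ Fintype.card F
  · have h3 := card_real hg hh' hq 1
    have h4 := card_real hg hh' hq (-1)
    rw [abs_le]
    change (N 1 : ℝ) ≤ _ at h3
    change (N (-1) : ℝ) ≤ _ at h4
    have h5 : (f.natDegree : ℝ) ≤ f.natDegree * t := by nlinarith
    constructor <;> nlinarith
  · push Not at hq
    have h3 : |(N 1 : ℝ) - N (-1)| ≤ Fintype.card F := by
      rw [abs_le]
      have h4 : (0 : ℝ) ≤ N 1 := Nat.cast_nonneg _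
      have h5 : (0 : ℝ) ≤ N (-1) := Nat.cast_nonneg _
      constructor <;> linarith
    refine h3.trans ?_
    have h6 : (Fintype.card F : ℝ) ≤ 4 * f.natDegree + 16 := by exact_mod_cast hq.le
    have h7 : t ≤ 9 * f.natDegree := by
      by_contra h8
      push Not at h8
      nlinarith
    nlinarith

end main

end Pool.Agent.HJ66
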